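import Mathlib
import Pool.Agent.P.MP_2eaf66_an.Defs
import Pool.Agent.P.MP_2eaf66_an.BgDefs
import Pool.Agent.P.MP_2eaf66_an.BgMain

set_option autoImplicit false

namespace Pool.Agent.Results.MP_2eaf66_an.BergmanBound

open Pool.Agent.P.MP_2eaf66_an

/-- The zeta-invariant `Z_k(a)` dominates the weighted Bergman integral of the third derivative
of the holomorphic part of `a`, which in turn dominates the weighted Fourier sum. -/
theorem result (k : ℕ) (hk : 1 ≤ k) :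
    ∃ c : ℝ, 0 < c ∧ ∀ a : ℝ → ℝ, ContDiff ℝ (⊤ : ℕ∞) a → Function.Periodic a (2 * Real.pi) →
      ∃ S Z : ℝ,
        HasSum (fun n : ℕ => ((n : ℝ) + 2) ^ (2 * k + 1) * ‖coeff a (n + 2)‖ ^ (2 * k)) S ∧
        HasSum (fun m : {m : Fin (2 * k) → ℤ // ∑ i, m i = 0} =>
          (Ncoef m.1 : ℂ) * ∏ i, coeff a (m.1 i)) (Z : ℂ) ∧
        MeasureTheory.IntegrableOn
          (fun z : ℂ => ‖qdiff a z‖ ^ (2 * k) * (1 - ‖z‖ ^ 2) ^ (4 * k - 2)) (Metric.ball 0 1) ∧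
        c * S ≤ (∫ z in Metric.ball (0 : ℂ) 1,
          ‖qdiff a z‖ ^ (2 * k) * (1 - ‖z‖ ^ 2) ^ (4 * k - 2)) ∧
        c * (∫ z in Metric.ball (0 : ℂ) 1,
          ‖qdiff a z‖ ^ (2 * k) * (1 - ‖z‖ ^ 2) ^ (4 * k - 2)) ≤ Z := by
  obtain ⟨c, hc, h⟩ := Bg.main_berg k hk
  refine ⟨c, hc, fun a ha hp => h (coeff a) (coeff_neg a) (coeff_summable a ha hp) _ rfl _
    fun z => tsum_congr fun n => ?_⟩
  rw [Bg.dd2]; ring

end Pool.Agent.Results.MP_2eaf66_an.BergmanBound
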