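import Mathlib
import Pool.Agent.P.MP_2eaf66_an.Defs
import Pool.Agent.P.MP_2eaf66_an.Mo.Fin

set_option autoImplicit false

namespace Pool.Agent.Results.MP_2eaf66_an.MomentSequence

open Pool.Agent.P.MP_2eaf66_an

/-- The numbers `Z_k(a) / k ^ 2` are the moments of one positive measure carried by the half line
that starts at the square of a lower bound of `|a|`. -/
theorem result (a : ℝ → ℝ) (ha : ContDiff ℝ (⊤ : ℕ∞) a) (hp : Function.Periodic a (2 * Real.pi))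
    (δ : ℝ) (hδ : 0 ≤ δ) (h : ∀ θ, δ ≤ |a θ|) :
    ∃ ν : MeasureTheory.Measure ℝ, ν (Set.Iio (δ ^ 2)) = 0 ∧ ∀ k : ℕ, 1 ≤ k →
      MeasureTheory.Integrable (fun x : ℝ => x ^ (k - 1)) ν ∧
      HasSum (fun m : {m : Fin (2 * k) → ℤ // ∑ i, m i = 0} =>
        (Ncoef m.1 : ℂ) * ∏ i, coeff a (m.1 i))
        (((k : ℝ) ^ 2 * ∫ x, x ^ (k - 1) ∂ν : ℝ) : ℂ) := by
  obtain ⟨ν, h1, h2⟩ := Mo.main_moment a ha hp δ hδ h
  refine ⟨ν, h1, fun k hk => ?_⟩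
  obtain ⟨j, rfl⟩ : ∃ j, k = j + 1 := ⟨k - 1, by omega⟩
  rw [Nat.add_sub_cancel, Nat.cast_succ]
  exact h2 j

end Pool.Agent.Results.MP_2eaf66_an.MomentSequence
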